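import Mathlib
import Pool.Agent.R204.ST.Stm
import Pool.Agent.R204.ST.Num
import Pool.Agent.R204.ST.Asm
import Pool.Agent.R204.ST.Div
import Pool.Agent.R204.ST.Green
import Pool.Agent.R204.ST.MinMax
import Pool.Agent.R204.ST.Phi
import Pool.Agent.R204.ST.Pos
import Pool.Agent.R204.ST.Ex1
import Pool.Agent.R204.ST.Ex2

/-!
# MP_1de434_an: Steklov eigenvalue sums, equilateral triangle versus disk

For every `n ≥ 1`, `(σ_1(T) + ⋯ + σ_n(T)) L(T) ≤ 2 π ∑_{j=1}^n ⌈j/2⌉ = S_n(D)`.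
`T` is the equilateral triangle of inradius `1` (perimeter `6√3`); the product is invariant
under dilation, as the problem file notes.
-/

open MeasureTheory Real Set

namespace Pool.Agent.Results.MP_1de434_an.TriangleDisk

noncomputable section

/-- The closed equilateral triangle of inradius `1`; vertices `(-2,0)`, `(1,√3)`, `(1,-√3)`,
side length `2√3`, perimeter `6√3`. -/
def T : Set (ℝ × ℝ) :=
  {p | p.1 ≤ 1 ∧ -p.1 + √3 * p.2 ≤ 2 ∧ -p.1 - √3 * p.2 ≤ 2}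

/-- Arc-length parametrisations of the three sides of `T`, `s ∈ [-√3, √3]`. -/
def side : Fin 3 → ℝ → ℝ × ℝ
  | 0, s => (1, s)
  | 1, s => (-1 / 2 - √3 / 2 * s, √3 / 2 - s / 2)
  | 2, s => (-1 / 2 + √3 / 2 * s, -(√3 / 2) - s / 2)

/-- The Dirichlet energy `∫_T |∇u|^2`. -/
def energy (u : ℝ × ℝ → ℝ) : ℝ :=
  ∫ p in T, (fderiv ℝ u p (1, 0)) ^ 2 + (fderiv ℝ u p (0, 1)) ^ 2

/-- The boundary integral `∫_{∂T} u^2` (arc length). -/
def bd (u : ℝ × ℝ → ℝ) : ℝ :=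
  ∫ s in (-√3)..√3, ∑ m : Fin 3, (u (side m s)) ^ 2

/-- The Steklov eigenvalue `σ_k(T)`, `k = 0, 1, 2, …`, repeated according to multiplicity,
by the min-max (Courant-Fischer) formula: the infimum of the `M` for which there is a
`(k+1)`-dimensional space of smooth functions, on which the trace is injective, all of whose
members satisfy `∫_T |∇u|^2 ≤ M ∫_{∂T} u^2`. -/
def steklov (k : ℕ) : ℝ :=
  sInf {M : ℝ | ∃ V : Submodule ℝ (ℝ × ℝ → ℝ), (∀ u ∈ V, ContDiff ℝ ⊤ u) ∧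
    Module.finrank ℝ V = k + 1 ∧ (∀ u ∈ V, bd u = 0 → u = 0) ∧
    ∀ u ∈ V, energy u ≤ M * bd u}

theorem side_eq (m : Fin 3) (s : ℝ) : side m s = Pool.Agent.R204.ST.side m s := by
  fin_cases m <;> rfl

theorem bd_eq : bd = Pool.Agent.R204.ST.bd := by
  funext u
  unfold bd Pool.Agent.R204.ST.bd
  simp only [side_eq]

theorem energy_eq : energy = Pool.Agent.R204.ST.energy := rfl

theorem steklov_eq (k : ℕ) : steklov k = Pool.Agent.R204.ST.steklov k := by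
  unfold steklov Pool.Agent.R204.ST.steklov
  rw [bd_eq, energy_eq]

/-- For every `n ≥ 1`: `(σ_1(T) + ⋯ + σ_n(T)) · 6√3 ≤ 2π ∑_{j=1}^n ⌈j/2⌉`. -/
theorem result (n : ℕ) (hn : 1 ≤ n) :
    (∑ k ∈ Finset.Icc 1 n, steklov k) * (6 * √3) ≤
      2 * π * ∑ j ∈ Finset.Icc 1 n, ((⌈(j : ℝ) / 2⌉ : ℤ) : ℝ) := by
  simp only [steklov_eq]
  exact Pool.Agent.R204.ST.final
    (Pool.Agent.R204.ST.green_stmt Pool.Agent.R204.ST.div_stmt)
    Pool.Agent.R204.ST.minmax_stmt Pool.Agent.R204.ST.phi_stmt Pool.Agent.R204.ST.pos_stmt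
    Pool.Agent.R204.ST.ex1_stmt Pool.Agent.R204.ST.ex2_stmt n hn

end

end Pool.Agent.Results.MP_1de434_an.TriangleDisk
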